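import Pool.Agent.Helper91K1.PQ.Stm

set_option autoImplicit false

/-!
# Piece POOR of the project PQ (MP_e94e4b_nt): Markov's inequality for the integers in few blocks
-/

open MeasureTheory Filter Topology Finset

namespace Pool.Agent.Helper31.PQ

open Pool.Agent.Helper91K1.PQ

/-- one block -/
theorem vol_block (R : ℝ) (hR : 0 < R) (N L : ℕ) (hN : 1 ≤ N) (s : ℝ) (k : ℤ) :
    volume {x : ℝ × ℝ | x.2 ∈ Set.Icc (-R) R ∧
      mm s N x ∈ Set.Ioc (k * (L : ℤ)) (k * (L : ℤ) + L)} ≤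
      ENNReal.ofReal (2 * R * (L / (N : ℝ) ^ 2)) := by
  have hN1 : (1 : ℝ) ≤ N := by exact_mod_cast hN
  have hN0 : (0 : ℝ) < (N : ℝ) ^ 2 := by positivity
  set S : Set (ℝ × ℝ) := {x | x.2 ∈ Set.Icc (-R) R ∧
    x.1 * (N : ℝ) ^ 2 + x.2 * N + s ∈ Set.Ico ((k : ℝ) * L + 1) (k * L + L + 1)} with hS
  have hset : {x : ℝ × ℝ | x.2 ∈ Set.Icc (-R) R ∧
      mm s N x ∈ Set.Ioc (k * (L : ℤ)) (k * (L : ℤ) + L)} ⊆ S := by
    rintro x ⟨h1, h2, h3⟩
    refine ⟨h1, ?_, ?_⟩
    · have h4 : k * (L : ℤ) + 1 ≤ ⌊x.1 * (N : ℝ) ^ 2 + x.2 * N + s⌋ := h2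
      have h5 := Int.le_floor.1 h4
      push_cast at h5
      exact h5
    · have h4 : ⌊x.1 * (N : ℝ) ^ 2 + x.2 * N + s⌋ < k * (L : ℤ) + L + 1 :=
        Int.lt_add_one_of_le h3
      have h5 := Int.floor_lt.1 h4
      push_cast at h5
      exact h5
  have hmeas : MeasurableSet S := by
    refine MeasurableSet.inter ?_ ?_
    · exact measurableSet_Icc.preimage measurable_snd
    · refine measurableSet_Ico.preimage ?_
      fun_prop
  refine (measure_mono hset).trans ?_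
  rw [Measure.volume_eq_prod, Measure.prod_apply_symm hmeas]
  calc ∫⁻ y, volume ((fun x => (x, y)) ⁻¹' S)
      ≤ ∫⁻ y, (Set.Icc (-R) R).indicator (fun _ => ENNReal.ofReal (L / (N : ℝ) ^ 2)) y := by
        refine lintegral_mono fun y => ?_
        by_cases hy : y ∈ Set.Icc (-R) R
        · rw [Set.indicator_of_mem hy]
          refine (measure_mono (t := Set.Icc (((k : ℝ) * L + 1 - y * N - s) / (N : ℝ) ^ 2)
            (((k : ℝ) * L + 1 - y * N - s) / (N : ℝ) ^ 2 + L / (N : ℝ) ^ 2)) ?_).trans ?_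
          · rintro x ⟨-, h2, h3⟩
            simp only at h2 h3
            constructor
            · rw [div_le_iff₀ hN0]
              linarith
            · rw [← add_div, le_div_iff₀ hN0]
              linarith
          · rw [Real.volume_Icc]
            apply le_of_eq
            congr 1
            ring
        · rw [Set.indicator_of_notMem hy]
          have : ((fun x => (x, y)) ⁻¹' S : Set ℝ) = ∅ := by
            apply Set.eq_empty_of_forall_notMem
            rintro x ⟨h1, -⟩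
            exact hy h1
          rw [this, measure_empty]
    _ = ENNReal.ofReal (L / (N : ℝ) ^ 2) * volume (Set.Icc (-R) R) :=
        lintegral_indicator_const measurableSet_Icc _
    _ = ENNReal.ofReal (2 * R * (L / (N : ℝ) ^ 2)) := by
        rw [Real.volume_Icc, ← ENNReal.ofReal_mul (by positivity)]
        congr 1
        ring

/-- the union of the blocks -/
def BadN (b b' R : ℝ) (L : ℕ) (P : Finset ℤ) (g : ℕ → ℝ) (N : ℕ) : Set (ℝ × ℝ) :=
  {x ∈ box b b' R | ∃ k ∈ P, mm (g N) N x ∈ Set.Ioc (k * (L : ℤ)) (k * (L : ℤ) + L)}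

theorem meas_mm (s : ℝ) (N : ℕ) : Measurable (fun x : ℝ × ℝ => mm s N x) := by
  unfold mm
  refine Int.measurable_floor.comp ?_
  fun_prop

theorem meas_BadN (b b' R : ℝ) (L : ℕ) (P : Finset ℤ) (g : ℕ → ℝ) (N : ℕ) :
    MeasurableSet (BadN b b' R L P g N) := by
  refine MeasurableSet.inter (measurableSet_Icc.prod measurableSet_Icc) ?_
  have h : {x : ℝ × ℝ | ∃ k ∈ P, mm (g N) N x ∈ Set.Ioc (k * (L : ℤ)) (k * (L : ℤ) + L)} =
      (fun x : ℝ × ℝ => mm (g N) N x) ⁻¹' (⋃ k ∈ P, Set.Ioc (k * (L : ℤ)) (k * (L : ℤ) + L)) := by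
    ext x
    simp only [Set.mem_preimage, Set.mem_iUnion, exists_prop]
    rfl
  have h2 : {x : ℝ × ℝ | (fun x => ∃ k ∈ P, mm (g N) N x ∈
      Set.Ioc (k * (L : ℤ)) (k * (L : ℤ) + L)) x} = {x : ℝ × ℝ | ∃ k ∈ P, mm (g N) N x ∈
      Set.Ioc (k * (L : ℤ)) (k * (L : ℤ) + L)} := rfl
  show MeasurableSet {x : ℝ × ℝ | ∃ k ∈ P, mm (g N) N x ∈
      Set.Ioc (k * (L : ℤ)) (k * (L : ℤ) + L)}
  rw [h]
  exact (MeasurableSet.of_discrete).preimage (meas_mm _ _)

theorem vol_BadN (b b' R : ℝ) (hR : 0 < R) (L : ℕ) (P : Finset ℤ) (g : ℕ → ℝ) (N : ℕ)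
    (hN : 1 ≤ N) : volume (BadN b b' R L P g N) ≤
      P.card * ENNReal.ofReal (2 * R * (L / (N : ℝ) ^ 2)) := by
  have h : BadN b b' R L P g N ⊆ ⋃ k ∈ P, {x : ℝ × ℝ | x.2 ∈ Set.Icc (-R) R ∧
      mm (g N) N x ∈ Set.Ioc (k * (L : ℤ)) (k * (L : ℤ) + L)} := by
    rintro x ⟨h1, k, hk, h2⟩
    simp only [Set.mem_iUnion]
    exact ⟨k, hk, h1.2, h2⟩
  refine (measure_mono h).trans ((measure_biUnion_finset_le _ _).trans ?_)
  refine (Finset.sum_le_sum fun k _ => vol_block R hR N L hN (g N) k).trans ?_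
  rw [Finset.sum_const, nsmul_eq_mul]

theorem t_POOR : S_POOR := by
  intro b b' R κ ρ hb hbb hR hκ hκ1 hρ
  refine ⟨2 * R / ρ, 1, ?_⟩
  intro X hX g P hP
  have hX1 : (1 : ℝ) ≤ X := by exact_mod_cast hX
  have hX0 : (0 : ℝ) < X := by linarith
  set L := Lb κ X with hL
  have hLX : (L : ℝ) ≤ (X : ℝ) ^ (1 - κ) := Nat.floor_le (by positivity)
  set S : Set (ℝ × ℝ) := {x ∈ box b b' R | ρ * X ≤ ({N ∈ (Ioc X (2 * X) : Set ℕ) |
      ∃ k ∈ P, mm (g N) N x ∈ Set.Ioc (k * (L : ℤ)) (k * (L : ℤ) + L)}.ncard : ℝ)} with hS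
  classical
  set f : ℝ × ℝ → ENNReal := fun x => ∑ N ∈ Ioc X (2 * X),
    (BadN b b' R L P g N).indicator (fun _ => (1 : ENNReal)) x with hf
  have hfm : Measurable f := by
    refine Finset.measurable_sum _ fun N _ => ?_
    exact measurable_const.indicator (meas_BadN b b' R L P g N)
  have hsub : S ⊆ {x | ENNReal.ofReal (ρ * X) ≤ f x} := by
    rintro x ⟨hx, h⟩
    show ENNReal.ofReal (ρ * X) ≤ f x
    have h1 : ({N ∈ (Ioc X (2 * X) : Set ℕ) |
        ∃ k ∈ P, mm (g N) N x ∈ Set.Ioc (k * (L : ℤ)) (k * (L : ℤ) + L)}).ncard =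
        ((Ioc X (2 * X)).filter (fun N => x ∈ BadN b b' R L P g N)).card := by
      rw [← Set.ncard_coe_finset]
      congr 1
      ext N
      simp only [Finset.coe_Ioc, Set.mem_Ioc, Finset.coe_filter, Finset.mem_Ioc, BadN,
        Set.mem_setOf_eq]
      constructor
      · rintro ⟨h2, h3⟩
        exact ⟨h2, hx, h3⟩
      · rintro ⟨h2, -, h3⟩
        exact ⟨h2, h3⟩
    rw [h1] at h
    have h2 : f x = (((Ioc X (2 * X)).filter (fun N => x ∈ BadN b b' R L P g N)).card : ENNReal) := by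
      rw [hf]
      simp only [Set.indicator_apply]
      rw [Finset.sum_ite, Finset.sum_const_zero, add_zero, Finset.sum_const, nsmul_eq_mul, mul_one]
    rw [h2, ← ENNReal.ofReal_natCast]
    exact ENNReal.ofReal_le_ofReal h
  have hmark : ENNReal.ofReal (ρ * X) * volume S ≤ ∫⁻ x, f x :=
    (mul_le_mul_right (measure_mono hsub) _).trans (mul_meas_ge_le_lintegral hfm _)
  have hint : ∫⁻ x, f x ≤ ENNReal.ofReal (2 * R * (X : ℝ) ^ (3 / 4 : ℝ) *
      (X : ℝ) ^ (1 - κ) / X) := by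
    rw [hf, lintegral_finsetSum _ fun N _ =>
      measurable_const.indicator (meas_BadN b b' R L P g N)]
    calc ∑ N ∈ Ioc X (2 * X), ∫⁻ x, (BadN b b' R L P g N).indicator (fun _ => (1 : ENNReal)) x
        ≤ ∑ N ∈ Ioc X (2 * X), ENNReal.ofReal ((X : ℝ) ^ (3 / 4 : ℝ) *
            (2 * R * ((X : ℝ) ^ (1 - κ) / (X : ℝ) ^ 2))) := by
          refine Finset.sum_le_sum fun N hN => ?_
          rw [Finset.mem_Ioc] at hN
          have hN1 : 1 ≤ N := by omega
          rw [lintegral_indicator_const (meas_BadN b b' R L P g N), one_mul]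
          refine (vol_BadN b b' R hR L P g N hN1).trans ?_
          rw [← ENNReal.ofReal_natCast, ← ENNReal.ofReal_mul (by positivity)]
          apply ENNReal.ofReal_le_ofReal
          have hNX : (X : ℝ) ≤ N := by exact_mod_cast hN.1.le
          have h3 : (L : ℝ) / (N : ℝ) ^ 2 ≤ (X : ℝ) ^ (1 - κ) / (X : ℝ) ^ 2 := by
            gcongr
          gcongr
      _ = ENNReal.ofReal (X * ((X : ℝ) ^ (3 / 4 : ℝ) *
            (2 * R * ((X : ℝ) ^ (1 - κ) / (X : ℝ) ^ 2)))) := by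
          rw [Finset.sum_const, Nat.card_Ioc, nsmul_eq_mul,
            show 2 * X - X = X by omega, ENNReal.ofReal_mul (p := (X : ℝ)) (by positivity),
            ENNReal.ofReal_natCast]
      _ = _ := by
          congr 1
          field_simp
  have hfin : volume S ≠ ⊤ := by
    refine ne_top_of_le_ne_top ?_ (measure_mono (t := box b b' R) fun x hx => hx.1)
    unfold Pool.Agent.Helper91K1.PQ.box
    rw [Measure.volume_eq_prod, Measure.prod_prod, Real.volume_Icc, Real.volume_Icc]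
    exact ENNReal.mul_ne_top ENNReal.ofReal_ne_top ENNReal.ofReal_ne_top
  have h4 := ENNReal.toReal_mono ENNReal.ofReal_ne_top (hmark.trans hint)
  rw [ENNReal.toReal_mul, ENNReal.toReal_ofReal (by positivity),
    ENNReal.toReal_ofReal (by positivity)] at h4
  have h5 : volume.real S ≤ 2 * R * (X : ℝ) ^ (3 / 4 : ℝ) * (X : ℝ) ^ (1 - κ) / X / (ρ * X) := by
    rw [le_div_iff₀ (by positivity), mul_comm]
    exact h4
  refine h5.trans ?_
  have e1 : 2 * R * (X : ℝ) ^ (3 / 4 : ℝ) * (X : ℝ) ^ (1 - κ) / X / (ρ * X) =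
      2 * R / ρ * ((X : ℝ) ^ (3 / 4 : ℝ) * (X : ℝ) ^ (1 - κ) / (X : ℝ) ^ (2 : ℝ)) := by
    rw [Real.rpow_two]
    field_simp
  rw [e1, ← Real.rpow_add hX0, ← Real.rpow_sub hX0]
  have h6 : (X : ℝ) ^ (3 / 4 + (1 - κ) - 2) ≤ (X : ℝ) ^ (-(1 / 5) : ℝ) :=
    Real.rpow_le_rpow_of_exponent_le hX1 (by linarith)
  gcongr

end Pool.Agent.Helper31.PQ
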